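import Pool.Agent.Helper964_DD.CovFinal

/-!
# Covering for a half level reduces to membership in the levels above

`B i` is the level `i` of the dot-depth hierarchy and `Pol (B i)` is the half level above it (see
`Pool.Agent.Helper964_DD.Defs`). `ST i` is the level `i` of the Straubing-Thérien hierarchy and
`SPol (ST i)` is the half level above it: the finite unions of marked products of languages from
`ST i` (see `Pool.Agent.Helper964_DD.DefsST`). `Coverable C L Ls` is the covering problem for the
family `C` (see `Pool.Agent.Helper964_DD.DefsCov`). `lang k c` is the language over the alphabet with
`k` letters which is recognised by the automaton with the code `c`.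
-/

set_option autoImplicit false

open Pool.Agent.Helper964_DD

/-- For all `i ≥ 1`, `n ≥ 2` and `d` there is a computable function which maps every instance of the
covering problem for the half level above `ST i` (an automaton `c` and a list `cs` of automata over
an alphabet with `k` letters, where `k` is a part of the input) to an automaton over the alphabet
with `n` letters such that the instance has a covering if and only if the language of this automaton
is in the half level `Pol (B (i + 1 + d))` of the dot-depth hierarchy, and if and only if it is in
the full level `B (i + 2 + d)`. -/
theorem Pool.Agent.Results.MP_21f263_lc.CoveringReduction.result (i n d : ℕ) (hi : 1 ≤ i)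
    (hn : 2 ≤ n) : ∃ f : ℕ × (List ℕ × List ℕ) × List (List ℕ × List ℕ) → List ℕ × List ℕ,
      Computable f ∧ ∀ (k : ℕ) (c : List ℕ × List ℕ) (cs : List (List ℕ × List ℕ)),
        (Coverable {K | SPol (ST i) K} (lang k c) (cs.map (lang k)) ↔
          Pol (B (i + 1 + d)) (lang n (f (k, c, cs)))) ∧
        (Coverable {K | SPol (ST i) K} (lang k c) (cs.map (lang k)) ↔
          lang n (f (k, c, cs)) ∈ B (i + 2 + d)) := by
  obtain ⟨s, rfl⟩ : ∃ s, i = s + 1 := ⟨i - 1, by omega⟩
  exact ⟨cred n d s, (primrec_cred n d s).to_comp, fun k c cs => cred_coverable n d hn s k c cs⟩
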