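import Pool.Agent.Helper964_DD.FullAut

/-!
# Separation by a full level reduces to membership in the next level

`B i` is the level `i` of the dot-depth hierarchy (see `Pool.Agent.Helper964_DD.Defs`). `ST i` is the
level `i` of the Straubing-Thérien hierarchy (see `Pool.Agent.Helper964_DD.DefsST`). `lang k c` is the
language over the alphabet with `k` letters which is recognised by the automaton with the code `c`.
-/

set_option autoImplicit false

open Pool.Agent.Helper964_DD

/-- For all `i ≥ 2`, `n ≥ 2` and `d` there is a computable function which maps every instance of the
separation problem for the full level `ST i` (two automata over an alphabet with `k` letters, where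
`k` is a part of the input) to an automaton over the alphabet with `n` letters such that the languages
of the two automata can be separated by a language of `ST i` if and only if the language of the third
automaton is in the level `B (i + 1 + d)` of the dot-depth hierarchy. -/
theorem Pool.Agent.Results.MP_21f263_lc.FullSeparation.result (i n d : ℕ) (hi : 2 ≤ i)
    (hn : 2 ≤ n) : ∃ f : ℕ × (List ℕ × List ℕ) × (List ℕ × List ℕ) → List ℕ × List ℕ,
      Computable f ∧ ∀ (k : ℕ) (c₁ c₂ : List ℕ × List ℕ),
        ((∃ K ∈ ST i, lang k c₁ ⊆ K ∧ Disjoint K (lang k c₂)) ↔
          lang n (f (k, c₁, c₂)) ∈ B (i + 1 + d)) := by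
  obtain ⟨t, rfl⟩ : ∃ t, i = t + 2 := ⟨i - 2, by omega⟩
  exact ⟨fred n d t, (primrec_fred n d t).to_comp, fun k c₁ c₂ => fred_iff n d hn t k c₁ c₂⟩
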