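import Pool.Agent.Helper964_DD.Gap

/-!
# Membership in a half level reduces to membership in the levels above

`B i` is the level `i` of the dot-depth hierarchy, `Pol (B i)` is the half level above it: the finite
unions of products of languages from `B i` (see `Pool.Agent.Helper964_DD.Defs`). `lang k c` is the
language over the alphabet with `k` letters which is recognised by the automaton with the code `c`.
-/

set_option autoImplicit false

open Pool.Agent.Helper964_DD

/-- For every `n ≥ 2` and every `d` there is a computable function which maps an automaton over any
finite alphabet (the number of letters is a part of the input) to an automaton over the alphabet with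
`n` letters such that, for all `i ≥ 1`, the language of the first automaton is in the half level
`Pol (B i)` if and only if the language of the second automaton is in the half level
`Pol (B (i + d))`, and if and only if it is in the full level `B (i + 1 + d)`. -/
theorem Pool.Agent.Results.MP_21f263_lc.HalfLevel.result (n d : ℕ) (hn : 2 ≤ n) :
    ∃ f : ℕ × (List ℕ × List ℕ) → List ℕ × List ℕ, Computable f ∧
      ∀ (m : ℕ) (c : List ℕ × List ℕ) (i : ℕ), 1 ≤ i →
        (Pol (B i) (lang m c) ↔ Pol (B (i + d)) (lang n (f (m, c)))) ∧
        (Pol (B i) (lang m c) ↔ lang n (f (m, c)) ∈ B (i + 1 + d)) := by
  refine ⟨gred n d, (primrec_gred n d).to_comp, fun m c i hi => ?_⟩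
  obtain ⟨i, rfl⟩ := Nat.exists_eq_add_of_le hi
  exact gred_iff n d hn (m, c) i
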