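import Pool.Agent.Helper964_DD.HidAut

/-!
# Membership in a level of the dot-depth hierarchy reduces to membership in every higher level

`B i` is the level `i` of the dot-depth hierarchy (see `Pool.Agent.Helper964_DD.Basic`): `B 0` is
the family of the finite and of the cofinite languages, and `B (i + 1)` is the Boolean closure of
the monoid closure of `B i`. `lang k c` is the language over the alphabet with `k` letters which is
recognised by the automaton with the code `c`.
-/

set_option autoImplicit false

open Pool.Agent.Helper964_DD

/-- For every `n ≥ 2` and every `d` there is a computable function which maps an automaton over any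
finite alphabet (the number of letters is a part of the input) to an automaton over the alphabet with
`n` letters such that, for all `i ≥ 1`, the language of the first automaton is in the level `i` of
the dot-depth hierarchy over its alphabet if and only if the language of the second automaton is in
the level `i + d` of the dot-depth hierarchy over the alphabet with `n` letters. -/
theorem Pool.Agent.Results.MP_21f263_lc.LevelReduction.result (n d : ℕ) (hn : 2 ≤ n) :
    ∃ f : ℕ × (List ℕ × List ℕ) → List ℕ × List ℕ, Computable f ∧
      ∀ (m : ℕ) (c : List ℕ × List ℕ) (i : ℕ), 1 ≤ i →
        (lang m c ∈ B i ↔ lang n (f (m, c)) ∈ B (i + d)) := by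
  refine ⟨red n d, (primrec_red n d).to_comp, fun m c i hi => ?_⟩
  obtain ⟨i, rfl⟩ := Nat.exists_eq_add_of_le hi
  exact red_iff n d hn (m, c) i
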